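import Pool.Agent.N17.BZ.Gen
import Pool.Agent.N17.BZ.Proj

set_option autoImplicit false

universe u

namespace Pool.Agent.Results.MP_0f25e6_al.BezoutInequality

/-- All square-summable `f` with `α * f = 0`, where `(α * f)(g) = ∑ α(k) f(k⁻¹ g)`. -/
def kernel {G : Type u} [Group G] (α : G →₀ ℂ) : Set (lp (fun _ : G => ℂ) 2) :=
  {f | ∀ g : G, ∑ k ∈ α.support, α k * f (k⁻¹ * g) = 0}

open Classical in
/-- The von Neumann dimension of the kernel of left convolution by `α` on `ℓ²(G)`: one minus the
square of the distance from the basis vector at the identity of `G` to the kernel (this is the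
squared length of the projection of that vector to the kernel). It is zero exactly if `α * f` is
nonzero for all nonzero `f` in `ℓ²(G)`. -/
noncomputable def kerDim {G : Type u} [Group G] (α : G →₀ ℂ) : ℝ :=
  1 - Metric.infDist (lp.single 2 (1 : G) (1 : ℂ)) (kernel α) ^ 2

open Classical in
/-- The alternating element `v_1 ∧ ⋯ ∧ v_n = ∑ sign(σ) v_{σ(1)} ⊗ ⋯ ⊗ v_{σ(n)}` of the group algebra
of the power `Gⁿ`: its coefficient at `(x_1, …, x_n)` is the determinant of the matrix
`(v_j(x_i))`. -/
noncomputable def alternating {G : Type u} [Group G] {n : ℕ} (v : Fin n → (G →₀ ℂ)) :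
    (Fin n → G) →₀ ℂ :=
  Finsupp.onFinset (Fintype.piFinset fun _ => Finset.univ.biUnion fun j => (v j).support)
    (fun x => (Matrix.of fun j i => v j (x i)).det) (by
      intro x hx
      rw [Fintype.mem_piFinset]
      intro i
      by_contra hi
      apply hx
      apply Matrix.det_eq_zero_of_column_eq_zero i
      intro j
      by_contra hj
      exact hi (Finset.mem_biUnion.2 ⟨j, Finset.mem_univ j, Finsupp.mem_support_iff.2 hj⟩))

/-- A group is locally indicable if every nontrivial finitely generated subgroup has a nontrivial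
homomorphism to the group of integers. -/
def LocallyIndicable (H : Type u) [Group H] : Prop :=
  ∀ K : Subgroup H, K.FG → K ≠ ⊥ → ∃ φ : K →* Multiplicative ℤ, ∃ k, φ k ≠ 1

theorem kerDim_eq {G : Type u} [Group G] (α : G →₀ ℂ) : kerDim α = N17.BZ.kv α :=
  W649.ZL.kerDim_eq_vd α

theorem alternating_eq {G : Type u} [Group G] {n : ℕ} (v : Fin n → (G →₀ ℂ)) :
    alternating v = N17.BZ.alt v := by
  ext x
  rfl

/-- Let `G` be any group.

(1) For all `β, v_1, …, v_n` in the complex group algebra and every finite set `S` of points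
`l` of `ℂⁿ`, the sum over `S` of the `n`-th powers of the dimensions of the kernels of
`β + l_1 v_1 + ⋯ + l_n v_n` on `ℓ²(G)` is at most `1 + (|S| - 1) dim ker (v_1 ∧ ⋯ ∧ v_n)`, the
last kernel being taken on `ℓ²(Gⁿ)`.

(2) If `v_1, …, v_n` are linearly independent and supported on one left coset of a locally
indicable subgroup, then this sum is at most `1`, for every `β`.

(3) Let `T` be a finite subset of `G` that contains `n` distinct elements of one left coset of a
locally indicable subgroup. Then, for all `(v_1, …, v_n)` supported on `T` and outside countably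
many hypersurfaces, this sum is at most `1`, for every `β`.

(4) Let `x, y, z` be in `G` with `x⁻¹ y` of infinite order. For every finite set `S` of nonzero,
pairwise non-proportional elements supported on `{x, y, z}`, the sum over `S` of the squares of the
dimensions of the kernels is at most `1`.

(5) For every nonzero `α` supported on `{x, y, z}` and every finite set `C` of homomorphisms from
`G` to the circle such that any two of them differ at `a⁻¹ b` for some `a, b` in the support of
`α`, the dimension of the kernel of `α` is at most `|C|^(-1/2)`. -/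
theorem result {G : Type u} [Group G] :
    (∀ (n : ℕ) (β : G →₀ ℂ) (v : Fin n → (G →₀ ℂ)) (S : Finset (Fin n → ℂ)),
      ∑ l ∈ S, kerDim (β + ∑ j, l j • v j) ^ n
        ≤ 1 + ((S.card : ℝ) - 1) * kerDim (alternating v)) ∧
    (∀ (n : ℕ) (v : Fin n → (G →₀ ℂ)) (t : G) (H : Subgroup G), LocallyIndicable H →
      LinearIndependent ℂ v → (∀ j, ∀ x ∈ (v j).support, t⁻¹ * x ∈ H) →
      ∀ (β : G →₀ ℂ) (S : Finset (Fin n → ℂ)), ∑ l ∈ S, kerDim (β + ∑ j, l j • v j) ^ n ≤ 1) ∧
    (∀ (n : ℕ) (T : Finset G) (f : Fin n → T) (t : G) (H : Subgroup G), Function.Injective f →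
      LocallyIndicable H → (∀ j, t⁻¹ * (f j : G) ∈ H) →
      ∃ Q : ℕ → MvPolynomial (Fin n × T) ℂ, (∀ k, Q k ≠ 0) ∧
        ∀ y : Fin n × T → ℂ, (∀ k, MvPolynomial.eval y (Q k) ≠ 0) →
          ∀ (β : G →₀ ℂ) (S : Finset (Fin n → ℂ)),
            ∑ l ∈ S, kerDim (β + ∑ j, l j • ∑ x : T, Finsupp.single (x : G) (y (j, x))) ^ n
              ≤ 1) ∧
    (∀ x y z : G, ¬ IsOfFinOrder (x⁻¹ * y) →
      (∀ S : Finset (G →₀ ℂ), (∀ α ∈ S, α ≠ 0) →
        (∀ α ∈ S, ∀ g ∈ α.support, g = x ∨ g = y ∨ g = z) →
        (∀ α ∈ S, ∀ α' ∈ S, α ≠ α' → ∀ c : ℂ, α' ≠ c • α) →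
        ∑ α ∈ S, kerDim α ^ 2 ≤ 1) ∧
      (∀ α : G →₀ ℂ, α ≠ 0 → (∀ g ∈ α.support, g = x ∨ g = y ∨ g = z) →
        ∀ C : Finset (G →* Circle), (∀ χ ∈ C, ∀ ψ ∈ C, χ ≠ ψ →
          ∃ a ∈ α.support, ∃ b ∈ α.support, χ (a⁻¹ * b) ≠ ψ (a⁻¹ * b)) →
        C.card * kerDim α ^ 2 ≤ 1)) := by
  refine ⟨fun n β v S => ?_, fun n v t H hH hv hs β S => ?_, fun n T f t H hf hH hfH => ?_,
    fun x y z hxy => ⟨fun S h0 hS hprop => ?_, fun α h0 hα C hC => ?_⟩⟩
  · simp only [kerDim_eq, alternating_eq]
    exact N17.BZ.bezout_finset v β S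
  · simp only [kerDim_eq]
    exact N17.BZ.bezout_of_injective v (N17.BZ.alt_injective v hv t H hH hs) β S
  · obtain ⟨Q, hQ, h⟩ := N17.BZ.very_general T f hf t H hH hfH
    refine ⟨Q, hQ, fun y hy β S => ?_⟩
    simp only [kerDim_eq]
    exact N17.BZ.bezout_of_injective (N17.BZ.vT T y) (h y hy) β S
  · simp only [kerDim_eq]
    exact N17.BZ.bezout_three x y z hxy S hS h0 hprop
  · simp only [kerDim_eq]
    exact N17.BZ.char_three x y z hxy α hα h0 C hC

end Pool.Agent.Results.MP_0f25e6_al.BezoutInequality
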