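import Pool.Agent.N309.PD.Op
import Pool.Agent.N309.LO.Rows
import Pool.Agent.N309.LO.Level

/-!
# Kernels of operators with least terms on left-ordered groups

Let `G` be a left-ordered group and let `T` be a bounded operator from `ℓ²(G)^m` to `ℓ²(G)^n` which
commutes with the right translations, that is, a matrix over the group von Neumann algebra, for
instance a matrix over `ℓ¹(G)`. If the supports of its entries are bounded below and `C` is the
complex matrix of the coefficients at the lower bounds, then the von Neumann dimension of the kernel
of `T` is at most `m - rank C`. In particular a convolution operator whose symbol has a least element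
in its support is injective.

Outline. The level inequality `N309.LO.level_le` compares the kernel of `T` with that of its part at
the lowest level, which is given by the matrix `C`.
-/

set_option autoImplicit false

universe u

namespace Pool.Agent.Results.MP_0f25e6_al.LeastTermOperators

/-- `ℓ²(G)^m`, the square-summable functions on `G × {1, …, m}`. -/
noncomputable abbrev L2 (G : Type u) (m : ℕ) := lp (fun _ : G × Fin m => ℂ) 2

open Classical in
/-- The basis vector at the identity of `G` in the component `j`. -/
noncomputable def delta (G : Type u) [Group G] {m : ℕ} (j : Fin m) : L2 G m :=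
  lp.single 2 ((1 : G), j) (1 : ℂ)

/-- The right translate `f' (x, j) = f (x k, j)` of `f` by `k`. -/
def IsTranslate {G : Type u} [Group G] {m : ℕ} (k : G) (f f' : L2 G m) : Prop :=
  ∀ x j, f' (x, j) = f (x * k, j)

/-- `T` is a bounded linear operator which commutes with the right translations: a matrix over the
group von Neumann algebra. -/
def IsVonNeumann {G : Type u} [Group G] {m n : ℕ} (T : L2 G m → L2 G n) : Prop :=
  IsBoundedLinearMap ℂ T ∧
    ∀ (k : G) (f f' : L2 G m), IsTranslate k f f' → IsTranslate k (T f) (T f')

/-- The von Neumann dimension of the kernel of `T`: the sum over `j` of one minus the squared distance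
of the basis vector `delta j` from the kernel. -/
noncomputable def kerDim {G : Type u} [Group G] {m n : ℕ} (T : L2 G m → L2 G n) : ℝ :=
  ∑ j : Fin m, (1 - Metric.infDist (delta G j) {f : L2 G m | T f = 0} ^ 2)

/-- The total order of `G` is left-invariant. -/
def LeftInvariant (G : Type u) [Group G] [LinearOrder G] : Prop :=
  ∀ g a b : G, a ≤ b → g * a ≤ g * b

/-- With the levels `w j` of the columns and `u i` of the rows, all terms of `T` are at least at the
level of their row: if the coefficient of `T` at `x` in the row `i` and column `j` is not zero, then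
`u i ≤ x (w j)`. -/
def IsBoundedBelow {G : Type u} [Group G] [LinearOrder G] {m n : ℕ} (T : L2 G m → L2 G n)
    (u : Fin n → G) (w : Fin m → G) : Prop :=
  ∀ j i x, T (delta G j) (x, i) ≠ 0 → u i ≤ x * w j

/-- The complex matrix of the coefficients of `T` at the lowest level. -/
noncomputable def leading {G : Type u} [Group G] {m n : ℕ} (T : L2 G m → L2 G n)
    (u : Fin n → G) (w : Fin m → G) : Matrix (Fin n) (Fin m) ℂ :=
  Matrix.of fun i j => T (delta G j) (u i * (w j)⁻¹, i)

section proofs
open Pool.Agent.W649.ZL Pool.Agent.N309.LO Pool.Agent.N309.PD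

variable {G : Type u} [Group G]

theorem delta_eq {m : ℕ} (j : Fin m) : delta G j = (dl ((1 : G), j) : EE G (Fin m)) := by
  unfold delta dl
  congr 1
  exact Subsingleton.elim _ _

theorem Lam_single_apply (k : G) (c : ℂ) (f : EE G Unit) (x : G) :
    Lam (MonoidAlgebra.single k c) f (x, ()) = c * f (k⁻¹ * x, ()) := by
  rw [Lam_eq, MonoidAlgebra.coeff_single, cop_single]
  change c * (Ltr k f) (x, ()) = _
  rw [Ltr_apply]

theorem main [LinearOrder G] (hG : ∀ g a b : G, a ≤ b → g * a ≤ g * b) {m n : ℕ}
    (A : EE G (Fin m) →L[ℂ] EE G (Fin n)) (hA : Eqv A) (u : Fin n → G) (w : Fin m → G)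
    (h : ∀ j i x, A (dl (1, j)) (x, i) ≠ 0 → u i ≤ x * w j) (C : Matrix (Fin n) (Fin m) ℂ)
    (hC : ∀ i j, C i j = A (dl (1, j)) (u i * (w j)⁻¹, i)) :
    vd (LinearMap.ker (A : EE G (Fin m) →ₗ[ℂ] EE G (Fin n))) ≤ (m : ℝ) - C.rank := by
  classical
  set E : Matrix (Fin n) (Fin m) (MonoidAlgebra ℂ G) :=
    fun i j => MonoidAlgebra.single (u i * (w j)⁻¹) (C i j) with hE
  have hX : OrdInv G G := fun g a b h => hG g a b h
  have h1 := level_le hX w u A (opM E) hA (opM_eqv E)
    (fun j t i hne => h j i t hne) (by
      intro j t i he
      rw [opM_dl, inv_one, mul_one]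
      have e : t = u i * (w j)⁻¹ := by
        rw [he, smul_eq_mul, mul_inv_cancel_right]
      change (MonoidAlgebra.single (u i * (w j)⁻¹) (C i j)).coeff t = _
      rw [MonoidAlgebra.coeff_single, ← e, Finsupp.single_eq_same, hC, e])
    (by
      intro j t i he
      rw [opM_dl, inv_one, mul_one]
      change (MonoidAlgebra.single (u i * (w j)⁻¹) (C i j)).coeff t = _
      rw [MonoidAlgebra.coeff_single, Finsupp.single_apply, if_neg]
      intro e
      apply he
      rw [← e, smul_eq_mul, inv_mul_cancel_right])
  refine h1.trans ?_
  -- independent columns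
  obtain ⟨κ, a, ha1, ha2, ha3⟩ := exists_linearIndependent' ℂ (fun j : Fin m => fun i => C i j)
  have hfin : Finite κ := Finite.of_injective a ha1
  have hft : Fintype κ := Fintype.ofFinite κ
  have hrank : C.rank = Fintype.card κ := by
    rw [Matrix.rank_eq_finrank_span_cols]
    have e : (Set.range C.col) = Set.range (fun j : Fin m => fun i => C i j) := rfl
    rw [e, ← ha2]
    exact finrank_span_eq_card ha3
  set S : Finset (Fin m) := Finset.univ.image a with hS
  have hcard : S.card = Fintype.card κ := by
    rw [hS, Finset.card_image_of_injective _ ha1, Finset.card_univ]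
  have h2 := vd_ker_le (opM E) (opM_eqv E) S (by
    intro F hF hF2
    have h3 : ∀ (g : G) (i : Fin n), ∑ j, C i j * F (w j * g, j) = 0 := by
      intro g i
      have h4 := (opM_eq_zero E F).1 hF i
      have h5 : pr (E i) F (u i * g, ()) = 0 := by rw [h4]; rfl
      unfold pr at h5
      rw [sum_apply_EE] at h5
      rw [← h5]
      refine Finset.sum_congr rfl fun j _ => ?_
      change _ = Lam (MonoidAlgebra.single (u i * (w j)⁻¹) (C i j)) (cmp j F) (u i * g, ())
      rw [Lam_single_apply, cmp_apply]
      congr 3
      group
    have h6 : ∀ (g : G) (k : κ), F (w (a k) * g, a k) = 0 := by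
      intro g
      have h7 : ∑ k : κ, F (w (a k) * g, a k) • ((fun j : Fin m => fun i => C i j) ∘ a) k = 0 := by
        funext i
        rw [Finset.sum_apply]
        have h8 := h3 g i
        rw [← Finset.sum_subset (Finset.subset_univ S) (by
          intro j _ hj
          rw [hF2 (w j * g, j) hj, mul_zero]), hS, Finset.sum_image (by
          intro x _ y _ hxy
          exact ha1 hxy)] at h8
        rw [Pi.zero_apply, ← h8]
        refine Finset.sum_congr rfl fun k _ => ?_
        change F (w (a k) * g, a k) * C i (a k) = _
        rw [mul_comm]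
      exact (Fintype.linearIndependent_iff.1 ha3) _ h7
    ext ⟨g, j⟩
    by_cases hj : j ∈ S
    · rw [hS, Finset.mem_image] at hj
      obtain ⟨k, _, rfl⟩ := hj
      have h9 := h6 ((w (a k))⁻¹ * g) k
      rw [mul_inv_cancel_left] at h9
      exact h9
    · exact hF2 (g, j) hj)
  rw [Fintype.card_fin, hcard, ← hrank] at h2
  exact h2

end proofs

/-- **Kernels of operators with least terms.** Let `G` have a left-invariant total order and let `T`
be a bounded operator from `ℓ²(G)^m` to `ℓ²(G)^n` which commutes with the right translations, all
whose terms are at least at the level `u i` of their row, with the levels `w j` of the columns. Then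
the von Neumann dimension of the kernel of `T` is at most `m` minus the rank of the complex matrix of
the coefficients at the lowest level, and `T` is injective if the rank of this matrix is `m`. -/
theorem result (G : Type u) [Group G] [LinearOrder G] (hG : LeftInvariant G) (m n : ℕ)
    (T : L2 G m → L2 G n) (hT : IsVonNeumann T) (u : Fin n → G) (w : Fin m → G)
    (h : IsBoundedBelow T u w) :
    kerDim T ≤ m - (leading T u w).rank ∧ ((leading T u w).rank = m → Function.Injective T) := by
  set A : W649.ZL.EE G (Fin m) →L[ℂ] W649.ZL.EE G (Fin n) := hT.1.toContinuousLinearMap with hAdef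
  have hAT : ∀ f, A f = T f := fun f => rfl
  have hA : W649.ZL.Eqv A := by
    intro k f
    ext ⟨x, i⟩
    exact hT.2 k f (W649.ZL.tr k f) (fun x j => rfl) x i
  have h1 := main hG A hA u w (by
      intro j i x hne
      apply h j i x
      rw [delta_eq]
      exact hne) (leading T u w) (by
      intro i j
      unfold leading
      rw [Matrix.of_apply, delta_eq]
      rfl)
  have h2 : kerDim T = W649.ZL.vd (LinearMap.ker (A : W649.ZL.EE G (Fin m) →ₗ[ℂ]
      W649.ZL.EE G (Fin n))) := by
    rw [W649.ZL.vd_eq_infDist _ (ContinuousLinearMap.isClosed_ker A)]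
    unfold kerDim
    refine Finset.sum_congr rfl fun j _ => ?_
    rw [delta_eq]
    rfl
  refine ⟨h2 ▸ h1, ?_⟩
  intro hr
  rw [hr, sub_self] at h1
  exact W649.ZL.injective_of_vd_eq_zero A hA h1

end Pool.Agent.Results.MP_0f25e6_al.LeastTermOperators
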