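import Pool.Agent.N309.LO.Op

/-!
# Analytic zero divisors and left orderable groups

The statement of Q1 holds for every left orderable group, and it passes from `H` to `G` whenever
there is a `G`-invariant total order of the left cosets of `H` in `G`, for example when `H` is
normal and `G / H` is left orderable. These are consequences of an inequality for the von Neumann
dimensions of kernels which holds for all groups with such an order of cosets: the kernel of `α` on
`ℓ²(G)` is at most as large as the kernel of the part of `α` on the lowest coset.

Outline. Let `P` be the set of all `g` with `H ≤ gH`, let `Q` be the projection to the orthogonal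
complement of the kernel `K` of `α`, and suppose that `α` is supported on `P`. For each right coset
`Hg` let `U_g` be the closed span of the `Q δ_x` with `x` in `P g`, let `V_g` be that of the `Q δ_x`
with `x` in `(P \ H) g`, and let `W_g` be the orthogonal complement of `V_g` in `U_g` (the wandering
subspaces of prediction theory). The `W_g` of different cosets are orthogonal to each other and to
`K`. The operator which maps `f` to the function which is `α * (projection of f to W_g)` on `Hg` is
bounded, commutes with right translations, vanishes on `K`, and its range is dense in the closure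
of the range of the convolution by the restriction of `α` to `H`. Comparing ranks gives the
inequality.
-/

set_option autoImplicit false

universe u

namespace Pool.Agent.Results.MP_0f25e6_al.LeftOrderableGroups

/-- `ℓ²(G)` -/
noncomputable abbrev L2 (G : Type u) := lp (fun _ : G => ℂ) 2

/-- The value at `g` of the convolution `α * f`. -/
noncomputable def conv {G : Type u} [Group G] (α : G →₀ ℂ) (f : G → ℂ) (g : G) : ℂ :=
  ∑ k ∈ α.support, α k * f (k⁻¹ * g)

/-- The statement of Q1 for the group `G`: `α * f ≠ 0` for all nonzero `α` in the complex group
algebra and all nonzero `f` in `ℓ²(G)`. -/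
def NoAnalyticZeroDivisors (G : Type u) [Group G] : Prop :=
  ∀ α : G →₀ ℂ, α ≠ 0 → ∀ f : G → ℂ, Memℓp f 2 → f ≠ 0 → ∃ g : G, conv α f g ≠ 0

open Classical in
/-- the basis vector at the identity -/
noncomputable def delta (G : Type u) [Group G] : L2 G := lp.single 2 (1 : G) (1 : ℂ)

/-- The von Neumann dimension of the kernel `{f | α * f = 0}` of `α` on `ℓ²(G)`: one minus the
square of the distance from the basis vector at the identity of `G` to the kernel. -/
noncomputable def kerDim {G : Type u} [Group G] (α : G →₀ ℂ) : ℝ :=
  1 - Metric.infDist (delta G) {f : L2 G | ∀ g : G, conv α f g = 0} ^ 2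

/-- The total order of `G` is left-invariant. -/
def LeftInvariant (G : Type u) [Group G] [LinearOrder G] : Prop :=
  ∀ g a b : G, a ≤ b → g * a ≤ g * b

/-- The total order of the left cosets of `H` is invariant under the action of `G`. -/
def IsInvariant {G : Type u} [Group G] (H : Subgroup G) [LinearOrder (G ⧸ H)] : Prop :=
  ∀ (g : G) (a b : G ⧸ H), a ≤ b → g • a ≤ g • b

open Classical in
/-- The part of `α` on the left coset of `t`. -/
noncomputable def part {G : Type u} [Group G] (H : Subgroup G) (α : G →₀ ℂ) (t : G) : G →₀ ℂ :=
  α.filter (fun x : G => (x : G ⧸ H) = (t : G ⧸ H))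

/-- No coset which meets the support of `α` is smaller than the coset of `t`. -/
def IsBelow {G : Type u} [Group G] (H : Subgroup G) [LinearOrder (G ⧸ H)] (α : G →₀ ℂ) (t : G) :
    Prop :=
  ∀ x ∈ α.support, (t : G ⧸ H) ≤ (x : G ⧸ H)

theorem kerDim_eq {G : Type u} [Group G] (α : G →₀ ℂ) :
    kerDim α = W649.ZL.vd (LinearMap.ker
      (W649.ZL.cop α : W649.ZL.EE G Unit →ₗ[ℂ] W649.ZL.EE G Unit)) :=
  W649.ZL.kerDim_eq_vd α

/-- **Analytic zero divisors and left orderable groups.**

1. If `G` has a left-invariant total order, then `α * f ≠ 0` for all nonzero `α` in the complex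
group algebra and all nonzero `f` in `ℓ²(G)`.
2. Let there be a `G`-invariant total order of the left cosets of a subgroup `H`. If the statement
of Q1 holds for `H`, then it holds for `G`. If `tH` is at most as large as all cosets which meet the
support of `α`, then the von Neumann dimension of the kernel of `α` on `ℓ²(G)` is at most that of
the part of `α` on `tH`.
3. In particular, if `N` is a normal subgroup, `G / N` has a left-invariant total order and the
statement of Q1 holds for `N`, then it holds for `G`. -/
theorem result :
    (∀ (G : Type u) [Group G] [LinearOrder G], LeftInvariant G → NoAnalyticZeroDivisors G) ∧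
    (∀ (G : Type u) [Group G] (H : Subgroup G) [LinearOrder (G ⧸ H)], IsInvariant H →
      (NoAnalyticZeroDivisors H → NoAnalyticZeroDivisors G) ∧
      ∀ (α : G →₀ ℂ) (t : G), IsBelow H α t → kerDim α ≤ kerDim (part H α t)) ∧
    (∀ (G : Type u) [Group G] (N : Subgroup G) [N.Normal] [LinearOrder (G ⧸ N)],
      LeftInvariant (G ⧸ N) → NoAnalyticZeroDivisors N → NoAnalyticZeroDivisors G) := by
  have h2 : ∀ (G : Type u) [Group G] (H : Subgroup G) [LinearOrder (G ⧸ H)], IsInvariant H →
      NoAnalyticZeroDivisors H → NoAnalyticZeroDivisors G := by
    intro G _ H _ hinv hH α hα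
    exact (W649.ZL.regular_iff α).2 (N309.LO.order_injective H hinv
      (fun β hβ => (W649.ZL.regular_iff β).1 (hH β hβ)) α hα)
  refine ⟨?_, fun G _ H _ hinv => ⟨h2 G H hinv, ?_⟩, ?_⟩
  · intro G _ _ hinv α hα
    exact (W649.ZL.regular_iff α).2 (N309.LO.leftOrdered_injective hinv α hα)
  · intro α t ht
    rw [kerDim_eq, kerDim_eq]
    exact N309.LO.order_le H hinv α t ht
  · intro G _ N _ _ hinv hN
    refine h2 G N ?_ hN
    intro g a b hab
    exact hinv (g : G ⧸ N) a b hab

end Pool.Agent.Results.MP_0f25e6_al.LeftOrderableGroups
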